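import Pool.Agent.N353.PT.Stm

/-!
# PT/STEP (project PT of helper353, MP_a8780a_co): the induction step of the construction of the paths
-/

set_option autoImplicit false
set_option linter.unusedVariables false

open Finset
open scoped Classical

namespace Pool.Agent.N704.PT

open Pool.Agent.N353.PT

section

variable {V : Type} [Fintype V]

/-- the unused ends `b j` -/
noncomputable def E0 {m : ℕ} (n : ℕ) (b : Fin m → V) (σ : ℕ → Fin m) : Finset V :=
  univ.filter fun v => ∃ j, (∀ l < n, σ l ≠ j) ∧ v = b j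

theorem mem_E0 {m n : ℕ} {b : Fin m → V} {σ : ℕ → Fin m} {v : V} :
    v ∈ E0 n b σ ↔ ∃ j, (∀ l < n, σ l ≠ j) ∧ v = b j := by
  simp [E0]

theorem exists_unused {m n : ℕ} (h : n < m) (σ : ℕ → Fin m) : ∃ j, ∀ l < n, σ l ≠ j := by
  by_contra hc
  push Not at hc
  have h1 : (univ : Finset (Fin m)) ⊆ (range n).image σ := by
    intro j _
    obtain ⟨l, hl, hj⟩ := hc j
    exact mem_image.2 ⟨l, mem_range.2 hl, hj⟩
  have h2 := (card_le_card h1).trans card_image_le
  simp at h2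
  omega

theorem E0_nonempty {m n : ℕ} (h : n < m) (b : Fin m → V) (σ : ℕ → Fin m) : (E0 n b σ).Nonempty := by
  obtain ⟨j, hj⟩ := exists_unused h σ
  exact ⟨b j, mem_E0.2 ⟨j, hj, rfl⟩⟩

theorem mem_PP {r : ℕ} {p : ℕ → V} {v : V} : v ∈ PP r p ↔ ∃ s ≤ r, p s = v := by
  simp [PP]

theorem mem_Rem {m n : ℕ} {a b : Fin m → V} {D W : Finset V} {σ τ : ℕ → Fin m} {r : ℕ → ℕ}
    {p : ℕ → ℕ → V} {RR : ℕ → Finset V} {v : V} :
    v ∈ Rem n a b D W σ τ r p RR ↔
    (v ∉ D ∨ v ∈ E0 n a τ ∨ v ∈ E0 n b σ) ∧ v ∉ W ∧ ∀ l < n, v ∉ PP (r l) (p l) ∧ v ∉ RR l := by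
  simp only [Rem, mem_filter, mem_univ, true_and, mem_E0]

/-- extension of a sequence -/
theorem ext_seq {α : Type} (n : ℕ) (f : ℕ → α) (x : α) :
    ∃ g : ℕ → α, (∀ l < n, g l = f l) ∧ g n = x :=
  ⟨Function.update f n x, fun l hl => Function.update_of_ne (by omega) _ _, Function.update_self _ _ _⟩

theorem E0_succ {m n : ℕ} {b : Fin m → V} {σ σ' : ℕ → Fin m} {j0 : Fin m} (hb : Function.Injective b)
    (h1 : ∀ l < n, σ' l = σ l) (h2 : σ' n = j0) {v : V} :
    v ∈ E0 (n + 1) b σ' ↔ v ∈ E0 n b σ ∧ v ≠ b j0 := by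
  rw [mem_E0, mem_E0]
  constructor
  · rintro ⟨j, hj, rfl⟩
    refine ⟨⟨j, fun l hl => ?_, rfl⟩, fun he => ?_⟩
    · rw [← h1 l hl]
      exact hj l (by omega)
    · exact hj n (by omega) (h2.trans (hb he).symm)
  · rintro ⟨⟨j, hj, rfl⟩, hne⟩
    refine ⟨j, fun l hl => ?_, rfl⟩
    rcases Nat.lt_succ_iff_lt_or_eq.1 hl with hl | rfl
    · rw [h1 l hl]
      exact hj l hl
    · rw [h2]
      rintro rfl
      exact hne rfl

theorem sum_bound {m n c S : ℕ} (hm : 0 < m) (hn : n ≤ m) (h : 8 * m * S ≤ n * (32 * m + c)) :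
    8 * S ≤ 32 * m + c := by
  have h1 : m * (8 * S) ≤ m * (32 * m + c) := by
    calc m * (8 * S) = 8 * m * S := by ring
      _ ≤ n * (32 * m + c) := h
      _ ≤ m * (32 * m + c) := Nat.mul_le_mul_right _ hn
  exact Nat.le_of_mul_le_mul_left h1 hm

theorem term_bound {m N c x : ℕ} (hN : 8 * m ≤ N) (h : N * x ≤ 4 * N + c) :
    8 * m * x ≤ 32 * m + c := by
  rcases Nat.le_total x 4 with hx | hx
  · nlinarith
  · obtain ⟨y, rfl⟩ := Nat.exists_eq_add_of_le hx
    have h1 : N * y ≤ c := by nlinarith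
    have h2 : 8 * m * y ≤ N * y := Nat.mul_le_mul_right _ hN
    nlinarith

theorem sum_succ {m n c S x N : ℕ} (hN : 8 * m ≤ N) (h : N * x ≤ 4 * N + c)
    (hS : 8 * m * S ≤ n * (32 * m + c)) : 8 * m * (S + x) ≤ (n + 1) * (32 * m + c) := by
  have h1 := term_bound hN h
  nlinarith

/-- the bound for the neighbours outside -/
theorem nb_bound {m n : ℕ} {a b : Fin m → V} {D E W : Finset V} {σ τ : ℕ → Fin m} {r : ℕ → ℕ}
    {p : ℕ → ℕ → V} {RR : ℕ → Finset V} (q : ℕ) (hR : ∀ l < n, (RR l).card ≤ q)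
    (ha : ∀ j, a j ∈ D) (hb : ∀ j, b j ∈ D) (I : Finset V) :
    (I ∩ ((Rem n a b D W σ τ r p RR)ᶜ ∪ (E0 n b σ ∪ E0 n a τ) ∪ E)).card ≤
      D.card + W.card + E.card + q * n + ∑ l ∈ range n, (I ∩ PP (r l) (p l)).card := by
  have h1 : I ∩ ((Rem n a b D W σ τ r p RR)ᶜ ∪ (E0 n b σ ∪ E0 n a τ) ∪ E) ⊆
      D ∪ W ∪ E ∪ (range n).biUnion RR ∪ (range n).biUnion fun l => I ∩ PP (r l) (p l) := by
    intro v hv
    rw [mem_inter, mem_union, mem_union, mem_compl, mem_Rem] at hv
    simp only [mem_union, mem_biUnion, mem_range, mem_inter]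
    by_contra hc
    push Not at hc
    obtain ⟨⟨⟨⟨hD, hW⟩, hE⟩, hRR⟩, hP⟩ := hc
    obtain ⟨hI, (hv | hv) | hv⟩ := hv
    · exact hv ⟨Or.inl hD, hW, fun l hl => ⟨hP l hl hI, hRR l hl⟩⟩
    · rw [mem_union, mem_E0, mem_E0] at hv
      rcases hv with ⟨j, -, rfl⟩ | ⟨j, -, rfl⟩
      · exact hD (hb j)
      · exact hD (ha j)
    · exact hE hv
  have h2 : ((range n).biUnion RR).card ≤ q * n := by
    calc ((range n).biUnion RR).card ≤ ∑ l ∈ range n, (RR l).card := card_biUnion_le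
      _ ≤ ∑ l ∈ range n, q := sum_le_sum fun l hl => hR l (mem_range.1 hl)
      _ = q * n := by simp [mul_comm]
  have h3 : ((range n).biUnion fun l => I ∩ PP (r l) (p l)).card ≤
      ∑ l ∈ range n, (I ∩ PP (r l) (p l)).card := card_biUnion_le
  calc _ ≤ _ := card_le_card h1
    _ ≤ _ := card_union_le _ _
    _ ≤ _ := Nat.add_le_add (card_union_le _ _) h3
    _ ≤ _ := Nat.add_le_add_right (Nat.add_le_add (card_union_le _ _) h2) _
    _ ≤ _ := Nat.add_le_add_right (Nat.add_le_add_right (Nat.add_le_add_right (card_union_le _ _) _) _) _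

end

theorem t_STEP (h : S_NEW) : S_STEP := by
  intro V _ T hT X0 m k n M A B a b D EA EB W δA δB σ τ r p RR hk hn F hWD hM hM8 I
  have hm : 0 < m := by omega
  -- facts from the frame
  have haD : ∀ j, a j ∈ D := fun j => by
    rw [F.hD]
    exact mem_union_right _ (mem_union_left _ (mem_biUnion.2 ⟨j, mem_univ _, F.aA j⟩))
  have hbD : ∀ j, b j ∈ D := fun j => by
    rw [F.hD]
    exact mem_union_right _ (mem_union_right _ (mem_biUnion.2 ⟨j, mem_univ _, F.bB j⟩))
  have haI : Function.Injective a := fun i j he => by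
    by_contra hne
    exact (disjoint_left.1 (F.dA i j hne)) (F.aA i) (he ▸ F.aA j)
  have hbI : Function.Injective b := fun i j he => by
    by_contra hne
    exact (disjoint_left.1 (F.dB i j hne)) (F.bB i) (he ▸ F.bB j)
  have hab : ∀ i j, a i ≠ b j := fun i j he =>
    (disjoint_left.1 (F.dAB i j)) (F.aA i) (he ▸ F.bB j)
  have hDW : ∀ v, v ∈ D → v ∉ W := fun v hv hw => (disjoint_left.1 hWD) hw hv
  set U := Rem n a b D W σ τ r p RR with hU
  -- the vertices of D in U
  have hS0U : E0 n b σ ⊆ U := by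
    intro v hv
    rw [hU, mem_Rem]
    refine ⟨Or.inr (Or.inr hv), ?_, fun l hl => ⟨?_, ?_⟩⟩
    · obtain ⟨j, -, rfl⟩ := mem_E0.1 hv
      exact hDW _ (hbD j)
    · obtain ⟨j, hj, rfl⟩ := mem_E0.1 hv
      intro hp
      obtain ⟨s, hs, he⟩ := mem_PP.1 hp
      rcases Nat.eq_zero_or_pos s with rfl | hs0
      · rw [I.sys.p0 l hl] at he
        exact hj l hl (hbI he)
      · rcases Nat.lt_or_ge s (r l) with hlt | hge
        · exact (I.sys.pD l hl s hs0 hlt).1 (he ▸ hbD j)
        · have : s = r l := le_antisymm hs hge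
          rw [this, I.sys.pr l hl] at he
          exact hab _ _ he
    · obtain ⟨j, hj, rfl⟩ := mem_E0.1 hv
      intro hr
      exact (disjoint_left.1 (I.sys.RD l hl)) hr (mem_union_left _ (hbD j))
  have hS1U : E0 n a τ ⊆ U := by
    intro v hv
    rw [hU, mem_Rem]
    refine ⟨Or.inr (Or.inl hv), ?_, fun l hl => ⟨?_, ?_⟩⟩
    · obtain ⟨j, -, rfl⟩ := mem_E0.1 hv
      exact hDW _ (haD j)
    · obtain ⟨j, hj, rfl⟩ := mem_E0.1 hv
      intro hp
      obtain ⟨s, hs, he⟩ := mem_PP.1 hp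
      rcases Nat.eq_zero_or_pos s with rfl | hs0
      · rw [I.sys.p0 l hl] at he
        exact hab _ _ he.symm
      · rcases Nat.lt_or_ge s (r l) with hlt | hge
        · exact (I.sys.pD l hl s hs0 hlt).1 (he ▸ haD j)
        · have : s = r l := le_antisymm hs hge
          rw [this, I.sys.pr l hl] at he
          exact hj l hl (haI he)
    · obtain ⟨j, hj, rfl⟩ := mem_E0.1 hv
      intro hr
      exact (disjoint_left.1 (I.sys.RD l hl)) hr (mem_union_left _ (haD j))
  have hdis : Disjoint (E0 n b σ) (E0 n a τ) := by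
    rw [disjoint_left]
    intro v h1 h2
    obtain ⟨j, -, rfl⟩ := mem_E0.1 h1
    obtain ⟨i, -, he⟩ := mem_E0.1 h2
    exact hab _ _ he.symm
  have hUD : ∀ v ∈ U, v ∉ E0 n b σ → v ∉ E0 n a τ → v ∉ D := by
    intro v hv h0 h1
    rcases (mem_Rem.1 hv).1 with h2 | h2 | h2
    · exact h2
    · exact absurd h2 h1
    · exact absurd h2 h0
  have hUW : ∀ v ∈ U, v ∉ W := fun v hv => (mem_Rem.1 hv).2.1
  have hUP : ∀ l < n, ∀ v ∈ U, v ∉ PP (r l) (p l) := fun l hl v hv => ((mem_Rem.1 hv).2.2 l hl).1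
  have hUR : ∀ l < n, ∀ v ∈ U, v ∉ RR l := fun l hl v hv => ((mem_Rem.1 hv).2.2 l hl).2
  obtain ⟨N, hN⟩ : ∃ N, N = 8 * m + (m - (n + 1)) * (4 + 6 * k ^ 3) := ⟨_, rfl⟩
  have hN8 : 8 * m ≤ N := by rw [hN]; exact Nat.le_add_right _ _
  have hN2 : N + (4 + 6 * k ^ 3) = 8 * m + (m - n) * (4 + 6 * k ^ 3) := by
    have : m - n = (m - (n + 1)) + 1 := by omega
    rw [this, hN]
    ring
  have hconn : Conn T (N + (4 + 6 * k ^ 3)) U := by
    rw [hN2]
    exact I.conn
  have h6 : 6 * k ^ 3 * n ≤ 6 * k ^ 3 * m := Nat.mul_le_mul_left _ hn.le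
  obtain ⟨d, r0, p0, R0, G, hRU, hRd, hRc, hRcl, hPcl, hconn', hcnt⟩ :=
    h V T hT EA EB U (E0 n b σ) (E0 n a τ) k N hk (by omega) hS0U hS1U (E0_nonempty hn _ _)
      (E0_nonempty hn _ _) hdis hconn
      (by
        intro z hz
        rw [mem_sdiff, mem_union] at hz
        push Not at hz
        obtain ⟨hzU, hz0, hz1⟩ := hz
        have hzD := hUD z hzU hz0 hz1
        have h1 := nb_bound (n := n) (a := a) (b := b) (D := D) (E := EA) (W := W) (σ := σ) (τ := τ)
          (r := r) (p := p) (RR := RR) (6 * k ^ 3) I.sys.Rc haD hbD (inN T z)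
        have h2 := sum_bound hm hn.le (I.spA z hzU)
        have h3 := F.degA z hzD
        have h4 := F.eA
        have h5 := (hM z).1
        rw [← hU] at h1
        generalize ∑ l ∈ range n, (inN T z ∩ PP (r l) (p l)).card = S at h1 h2
        generalize 6 * k ^ 3 * m = q at *
        omega)
      (by
        intro z hz
        rw [mem_sdiff, mem_union] at hz
        push Not at hz
        obtain ⟨hzU, hz0, hz1⟩ := hz
        have hzD := hUD z hzU hz0 hz1
        have h1 := nb_bound (n := n) (a := a) (b := b) (D := D) (E := EA ∪ EB) (W := W) (σ := σ) (τ := τ)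
          (r := r) (p := p) (RR := RR) (6 * k ^ 3) I.sys.Rc haD hbD (outN T z)
        have h2 := sum_bound hm hn.le (I.spB z hzU)
        have h3 := F.degB z hzD
        have h4 := F.eA
        have h4' := F.eB
        have h4'' := F.le
        have h5 := (hM z).2
        have h7 := card_union_le EA EB
        rw [← hU] at h1
        generalize ∑ l ∈ range n, (outN T z ∩ PP (r l) (p l)).card = S at h1 h2
        generalize 6 * k ^ 3 * m = q at *
        omega)
  have hPU : ∀ v ∈ PP r0 p0, v ∈ U := by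
    intro v hv
    obtain ⟨s, hs, rfl⟩ := mem_PP.1 hv
    exact G.pU s hs
  have hp0 : p0 0 ∈ E0 n b σ := (G.d0 _ (G.pU 0 (Nat.zero_le _))).1 (G.pd 0 (Nat.zero_le _))
  obtain ⟨j0, hj0, he0⟩ := mem_E0.1 hp0
  obtain ⟨j1, hj1, he1⟩ := mem_E0.1 G.pS
  have hinn : ∀ s, 0 < s → s < r0 → p0 s ∉ D ∧ p0 s ∉ W := by
    intro s hs hsr
    have hsU := G.pU s hsr.le
    refine ⟨hUD _ hsU ?_ (G.pn s hsr), hUW _ hsU⟩
    intro h0
    have h1 := (G.d0 _ hsU).2 h0
    rw [G.pd s hsr.le] at h1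
    omega
  have hRD : ∀ v ∈ R0, v ∉ D := by
    intro v hv
    have h1 := disjoint_left.1 hRd hv
    simp only [mem_union, not_or] at h1
    exact hUD v (hRU hv) h1.1.1 h1.1.2
  have hRP : Disjoint R0 (PP r0 p0) := by
    rw [disjoint_left]
    intro v hv hp
    exact (disjoint_left.1 hRd hv) (mem_union_right _ hp)
  obtain ⟨σ', hσ, hσn⟩ := ext_seq n σ j0
  obtain ⟨τ', hτ, hτn⟩ := ext_seq n τ j1
  obtain ⟨r', hr, hrn⟩ := ext_seq n r r0
  obtain ⟨p', hp, hpn⟩ := ext_seq n p p0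
  obtain ⟨RR', hRR, hRRn⟩ := ext_seq n RR R0
  have key : ∀ l, l < n + 1 → (l < n ∧ σ' l = σ l ∧ τ' l = τ l ∧ r' l = r l ∧ p' l = p l ∧ RR' l = RR l) ∨
      (l = n ∧ σ' l = j0 ∧ τ' l = j1 ∧ r' l = r0 ∧ p' l = p0 ∧ RR' l = R0) := by
    intro l hl
    rcases Nat.lt_succ_iff_lt_or_eq.1 hl with hl | rfl
    · exact Or.inl ⟨hl, hσ l hl, hτ l hl, hr l hl, hp l hl, hRR l hl⟩
    · exact Or.inr ⟨rfl, hσn, hτn, hrn, hpn, hRRn⟩
  have hRem : Rem (n + 1) a b D W σ' τ' r' p' RR' = U \ (PP r0 p0 ∪ R0) := by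
    ext v
    rw [mem_Rem, mem_sdiff, hU, mem_Rem, E0_succ haI hτ hτn, E0_succ hbI hσ hσn, mem_union]
    constructor
    · rintro ⟨h1, h2, h3⟩
      refine ⟨⟨?_, h2, fun l hl => ?_⟩, ?_⟩
      · rcases h1 with h1 | h1 | h1
        · exact Or.inl h1
        · exact Or.inr (Or.inl h1.1)
        · exact Or.inr (Or.inr h1.1)
      · have h4 := h3 l (by omega)
        rwa [hr l hl, hp l hl, hRR l hl] at h4
      · have h4 := h3 n (by omega)
        rw [hrn, hpn, hRRn] at h4
        tauto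
    · rintro ⟨⟨h1, h2, h3⟩, h4⟩
      refine ⟨?_, h2, fun l hl => ?_⟩
      · rcases h1 with h1 | h1 | h1
        · exact Or.inl h1
        · refine Or.inr (Or.inl ⟨h1, ?_⟩)
          rintro rfl
          exact h4 (Or.inl (mem_PP.2 ⟨r0, le_rfl, he1⟩))
        · refine Or.inr (Or.inr ⟨h1, ?_⟩)
          rintro rfl
          exact h4 (Or.inl (mem_PP.2 ⟨0, Nat.zero_le _, he0⟩))
      · rcases key l hl with ⟨hl, -, -, e1, e2, e3⟩ | ⟨rfl, -, -, e1, e2, e3⟩
        · rw [e1, e2, e3]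
          exact h3 l hl
        · rw [e1, e2, e3]
          tauto
  refine ⟨σ', τ', r', p', RR', ?_, ?_, ?_, ?_⟩
  · -- Sys
    constructor
    · intro i hi j hj he
      rcases key i hi with ⟨hi, e1, -⟩ | ⟨rfl, e1, -⟩ <;> rcases key j hj with ⟨hj, f1, -⟩ | ⟨rfl, f1, -⟩
      · rw [e1, f1] at he
        exact I.sys.si i hi j hj he
      · rw [e1, f1] at he
        exact absurd he (hj0 i hi)
      · rw [e1, f1] at he
        exact absurd he.symm (hj0 j hj)
      · rfl
    · intro i hi j hj he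
      rcases key i hi with ⟨hi, -, e1, -⟩ | ⟨rfl, -, e1, -⟩ <;>
        rcases key j hj with ⟨hj, -, f1, -⟩ | ⟨rfl, -, f1, -⟩
      · rw [e1, f1] at he
        exact I.sys.ti i hi j hj he
      · rw [e1, f1] at he
        exact absurd he (hj1 i hi)
      · rw [e1, f1] at he
        exact absurd he.symm (hj1 j hj)
      · rfl
    · intro l hl
      rcases key l hl with ⟨hl, -, -, e1, e2, e3⟩ | ⟨rfl, -, -, e1, e2, e3⟩
      · rw [e1]
        exact I.sys.r0 l hl
      · rw [e1]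
        exact G.r0
    · intro l hl
      rcases key l hl with ⟨hl, e0, -, e1, e2, e3⟩ | ⟨rfl, e0, -, e1, e2, e3⟩
      · rw [e2, e0]
        exact I.sys.p0 l hl
      · rw [e2, e0]
        exact he0
    · intro l hl
      rcases key l hl with ⟨hl, -, e0, e1, e2, e3⟩ | ⟨rfl, -, e0, e1, e2, e3⟩
      · rw [e1, e2, e0]
        exact I.sys.pr l hl
      · rw [e1, e2, e0]
        exact he1
    · intro l hl
      rcases key l hl with ⟨hl, -, -, e1, e2, e3⟩ | ⟨rfl, -, -, e1, e2, e3⟩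
      · rw [e1, e2]
        exact I.sys.pe l hl
      · rw [e1, e2]
        exact G.pe
    · intro l hl
      rcases key l hl with ⟨hl, -, -, e1, e2, e3⟩ | ⟨rfl, -, -, e1, e2, e3⟩
      · rw [e1, e2]
        exact I.sys.pb l hl
      · rw [e1, e2]
        intro s s' hss hs'
        have hne : p0 s' ≠ p0 s := by
          intro he
          have h1 := G.pd s' hs'
          rw [he, G.pd s (by omega)] at h1
          omega
        rw [hT.2 _ _ hne]
        intro ht
        have h1 := G.d1 _ (G.pU s (by omega)) _ (G.pU s' hs') ht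
        rw [G.pd s (by omega), G.pd s' hs'] at h1
        omega
    · intro l hl
      rcases key l hl with ⟨hl, -, -, e1, e2, e3⟩ | ⟨rfl, -, -, e1, e2, e3⟩
      · rw [e1, e2]
        exact I.sys.pj l hl
      · rw [e1, e2]
        intro s hs s' hs' he
        have h1 := G.pd s hs
        rw [he, G.pd s' hs'] at h1
        exact h1.symm
    · intro l hl
      rcases key l hl with ⟨hl, -, -, e1, e2, e3⟩ | ⟨rfl, -, -, e1, e2, e3⟩
      · rw [e1, e2]
        exact I.sys.pD l hl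
      · rw [e1, e2]
        exact hinn
    · intro l hl l' hl' hne
      rcases key l hl with ⟨hl, -, -, e1, e2, e3⟩ | ⟨rfl, -, -, e1, e2, e3⟩ <;>
        rcases key l' hl' with ⟨hl', -, -, f1, f2, f3⟩ | ⟨rfl, -, -, f1, f2, f3⟩
      · rw [e1, e2, f1, f2]
        exact I.sys.pp l hl l' hl' hne
      · rw [e1, e2, f1, f2]
        rw [disjoint_left]
        intro v hv hv'
        exact hUP l hl v (hPU v hv') hv
      · rw [e1, e2, f1, f2]
        rw [disjoint_left]
        intro v hv hv'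
        exact hUP l' hl' v (hPU v hv) hv'
      · exact absurd rfl hne
    · intro l hl
      rcases key l hl with ⟨hl, -, -, e1, e2, e3⟩ | ⟨rfl, -, -, e1, e2, e3⟩
      · rw [e3]
        exact I.sys.RD l hl
      · rw [e3, disjoint_left]
        intro v hv hv'
        rcases mem_union.1 hv' with h1 | h1
        · exact hRD v hv h1
        · exact hUW v (hRU hv) h1
    · intro l hl l' hl' hne
      rcases key l hl with ⟨hl, -, -, e1, e2, e3⟩ | ⟨rfl, -, -, e1, e2, e3⟩ <;>
        rcases key l' hl' with ⟨hl', -, -, f1, f2, f3⟩ | ⟨rfl, -, -, f1, f2, f3⟩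
      · rw [e3, f3]
        exact I.sys.dR l hl l' hl' hne
      · rw [e3, f3, disjoint_left]
        intro v hv hv'
        exact hUR l hl v (hRU hv') hv
      · rw [e3, f3, disjoint_left]
        intro v hv hv'
        exact hUR l' hl' v (hRU hv) hv'
      · exact absurd rfl hne
    · intro l hl l' hl'
      rcases key l hl with ⟨hl, -, -, e1, e2, e3⟩ | ⟨rfl, -, -, e1, e2, e3⟩ <;>
        rcases key l' hl' with ⟨hl', -, -, f1, f2, f3⟩ | ⟨h0, -, -, f1, f2, f3⟩
      · rw [e3, f1, f2]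
        exact I.sys.Rp l hl l' hl'
      · rw [e3, f1, f2, disjoint_left]
        intro v hv hv'
        exact hUR l hl v (hPU v hv') hv
      · rw [e3, f1, f2, disjoint_left]
        intro v hv hv'
        exact hUP l' hl' v (hRU hv) hv'
      · rw [e3, f1, f2]
        exact hRP
    · intro l hl
      rcases key l hl with ⟨hl, -, -, e1, e2, e3⟩ | ⟨rfl, -, -, e1, e2, e3⟩
      · rw [e3]
        exact I.sys.Rc l hl
      · rw [e3]
        exact hRc
    · intro l hl
      rcases key l hl with ⟨hl, -, -, e1, e2, e3⟩ | ⟨rfl, -, -, e1, e2, e3⟩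
      · rw [e3]
        exact I.sys.clR l hl
      · rw [e3]
        exact hRcl
    · intro l hl
      rcases key l hl with ⟨hl, -, -, e1, e2, e3⟩ | ⟨rfl, -, -, e1, e2, e3⟩
      · rw [e1, e2, e3]
        exact I.sys.clP l hl
      · rw [e1, e2, e3]
        exact hPcl
  · rw [hRem, ← hN]
    exact hconn'
  · intro z hz
    rw [hRem] at hz
    have hzU := (mem_sdiff.1 hz).1
    have h1 : ∑ l ∈ range (n + 1), (inN T z ∩ PP (r' l) (p' l)).card =
        ∑ l ∈ range n, (inN T z ∩ PP (r l) (p l)).card + (inN T z ∩ PP r0 p0).card := by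
      rw [sum_range_succ, hrn, hpn]
      congr 1
      refine sum_congr rfl fun l hl => ?_
      rw [hr l (mem_range.1 hl), hp l (mem_range.1 hl)]
    rw [h1]
    exact sum_succ hN8 (hcnt z hzU).1 (I.spA z hzU)
  · intro z hz
    rw [hRem] at hz
    have hzU := (mem_sdiff.1 hz).1
    have h1 : ∑ l ∈ range (n + 1), (outN T z ∩ PP (r' l) (p' l)).card =
        ∑ l ∈ range n, (outN T z ∩ PP (r l) (p l)).card + (outN T z ∩ PP r0 p0).card := by
      rw [sum_range_succ, hrn, hpn]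
      congr 1
      refine sum_congr rfl fun l hl => ?_
      rw [hr l (mem_range.1 hl), hp l (mem_range.1 hl)]
    rw [h1]
    exact sum_succ hN8 (hcnt z hzU).2 (I.spB z hzU)

end Pool.Agent.N704.PT
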